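import Pool.Agent.V1183.LM.Main
import Pool.Agent.V1183.LM.Cons2

/-!
The three-dimensional Euler equations with a transport velocity modified by an operator of negative
order: blow-up in finite time.

The Euler equations are `∂ₜ u + (curl u) × u + ∇ q = 0`, `div u = 0`. We replace the velocity `u` in
the second term, which transports and stretches the vorticity, by `u + K u`, where `K` is a linear
symmetric operator with divergence-free values, local to a thin tube, small in all `L^p`, and of
order `-β`, for any given `β < 1`. The energy `∫ u · (u + K u)` and the helicity `∫ u · curl u` are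
still conserved, and smooth solutions are unique, but there is a smooth periodic solution whose
gradient blows up in finite time.
-/

set_option autoImplicit false

open Set Filter Topology
open H459R3.NS Pool.Agent.V1178.NS Pool.Agent.V1183.LM

namespace Pool.Agent.Results.MP_b0497c_an.LagrangianLowerOrder

theorem result (β δ r : ℝ) (hβ0 : 0 ≤ β) (hβ1 : β < 1) (hδ : 0 < δ) (hr : 0 < r) :
    ∃ K : (V → V) → V → V, Smo β δ r K ∧
      (∀ (T : ℝ) (v : ℝ → V → V) (q : ℝ → V → ℝ), LSol T K v q → ∀ t ∈ Ico 0 T,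
        dot (v t) (v t) + dot (K (v t)) (v t) = dot (v 0) (v 0) + dot (K (v 0)) (v 0) ∧
        dot (v t) (curl (v t)) = dot (v 0) (curl (v 0))) ∧
      ∃ (T : ℝ) (u : ℝ → V → V) (p : ℝ → V → ℝ), 0 < T ∧ LSol T K u p ∧
        (∀ t ∈ Ico 0 T, ∀ x, ‖u t x‖ ≤ 1) ∧
        (∀ M, ∀ᶠ t in 𝓝[<] T, ∃ x, M < ‖fderiv ℝ (u t) x‖) ∧
        ∀ (T' : ℝ) (v : ℝ → V → V) (q : ℝ → V → ℝ), LSol T' K v q → v 0 = u 0 →
          T' ≤ T ∧ ∀ t ∈ Ico 0 T', v t = u t := by
  obtain ⟨K, hK, T, u, p, hT, hu, hb, hg⟩ := main hβ0 hβ1 hδ hr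
  exact ⟨K, hK, fun T v q h => conservation hK hδ.le h, T, u, p, hT, hu, fun t _ x => hb t x, hg,
    fun T' v q h h0 => no_ext hK hβ0 hβ1 hδ.le hu hT hg h h0⟩

end Pool.Agent.Results.MP_b0497c_an.LagrangianLowerOrder
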