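import Pool.Agent.V11287.Eul.Lin3

/-!
# The Euler equations: the direction of the vorticity as a line field, at one maximum point

Constantin, Fefferman and Majda have shown that a smooth solution of the Euler equations cannot blow
up as long as the velocity is bounded and the direction of the vorticity is regular. Here this is
proved with

* conditions at *one* point of maximal vorticity only, for almost every time;
* a *line field* instead of a direction field: the vorticity may have both orientations along the
  field, as for antiparallel vortex tubes at any distance from each other, without any condition on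
  the surfaces where the orientation changes;
* the mean oscillation of the velocity in balls about the point (which is at most its norm in `BMO`)
  instead of its supremum;
* an Osgood condition: the product of the oscillation `U` of the velocity and the gradient `G` of the
  direction may grow with the vorticity, `U G ≤ B(t) ψ(log |ω|)` with integrable `B`, as long as
  `∫^∞ ds / ((1 + s) ψ(s)) = ∞`, for instance `ψ(s) = 1 + log (1 + s)`.

Proof: let `e` be the direction of the vorticity at the point `x`. The averages of the rate of strain
`e · ∇(e · u)` with the weights `(1 - |y - x|² / r²)₊³` are bounded by the mean oscillation, and their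
derivative with respect to `r` is the integral of `ω · ((y - x) × e)` with a weight. For
`ω = (ω · ξ) ξ` this is `(ω · ξ) (ξ(y) - e) · ((y - x) × e)`, and one can integrate by parts with the
weight `((ξ(y) - e) · ((y - x) × e)) ξ(y)` for `ω = curl u` itself, whatever the sign of `ω · ξ` is.
-/

set_option autoImplicit false

open MeasureTheory Set

namespace Pool.Agent.Results.MP_b0497c_an.LineFieldDirection

open Pool.Agent.H708R2.EulerSign Pool.Agent.H708R2.EulerTypeI Pool.Agent.W786.Max
  Pool.Agent.V11287.Eul

/-- There is an absolute constant `C > 0` with the following property. Let `(u, p)` be a `C²`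
periodic solution of the Euler equations on `[0, T)`, let `ψ ≥ 1` be continuous on `[0, ∞)`, `B ≥ 0`
integrable over `(0, T)` and `Λ ≥ 1`. Suppose that for almost every `t` there is a point `x` of
maximal vorticity, such that if `m = |ω(t, x)| > Λ`, then near `x` the vorticity is parallel to a
regular line field at a length scale `1 / G`, and the velocity oscillates at most by `U`, where
`U G ≤ B(t) ψ(log m)`. Then
`∫ ds / ((1 + s) ψ(s)) ≤ C ∫₀ᵗ (1 + B)`, the integral being from `log K` to `log |ω(t, x)|`, for all
`t` and `x` with `|ω(t, x)| ≥ K` and all bounds `K ≥ Λ` of `|ω(0, ·)|`; and if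
`∫₀^∞ ds / ((1 + s) ψ(s)) = ∞`, then the Beale-Kato-Majda integral is finite. -/
theorem result : ∃ C : ℝ, 0 < C ∧
    ∀ (T Λ : ℝ) (u : ℝ → V → V) (p : ℝ → V → ℝ) (ψ B : ℝ → ℝ), IsC2Solution T u p →
      ContinuousOn ψ (Ici 0) → (∀ s, 0 ≤ s → 1 ≤ ψ s) → 1 ≤ Λ →
      (∀ t ∈ Ioo 0 T, 0 ≤ B t) → IntegrableOn B (Ioo 0 T) →
      (∀ᵐ t, t ∈ Ioo 0 T → ∃ x, IsMaxPt u t x ∧ (Λ < nrm (vort (u t) x) →
        ∃ G U, 0 < G ∧ U * G ≤ B t * ψ (Real.log (nrm (vort (u t) x))) ∧
          LineDirected (u t) x G U)) →
      (∀ K, Λ ≤ K → (∀ x, nrm (vort (u 0) x) ≤ K) →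
        ∀ t ∈ Ioo 0 T, ∀ x, K ≤ nrm (vort (u t) x) →
          ∫ s in (Real.log K)..(Real.log (nrm (vort (u t) x))), 1 / ((1 + s) * ψ s)
            ≤ C * ∫ s in Ioo 0 t, (1 + B s)) ∧
      (¬ IntegrableOn (fun s => 1 / ((1 + s) * ψ s)) (Ioi 0) → BKMFinite T u) :=
  ⟨Cl, Cl_pos, fun _ _ _ _ _ _ h hψc hψ1 hΛ hB0 hBi hyp => line_main h hψc hψ1 hΛ hB0 hBi hyp⟩

end Pool.Agent.Results.MP_b0497c_an.LineFieldDirection
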