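import Pool.Agent.V11287.Eul.Ker3

/-!
# The Euler equations: the positive part of the stretching kernel at one maximum point

For a smooth solution of the Euler equations with vorticity `ω` the stretching rate at a point `x` is
the singular integral `(3 / 4π) ∫ (ŷ · e) det(ŷ, ω(x + y), e) |y|⁻³ dy` with `ŷ = y / |y|` and
`e = ω(x) / |ω(x)|` (Constantin, Fefferman and Majda). Here a blow-up is excluded by a bound of the
*positive part* of the kernel only, in a ball of an arbitrary radius `ρ(t)` about *one* point of
maximal vorticity, for almost every time, together with a bound of the mean oscillation of the *one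
component* `e · u` of the velocity in this ball. Only the component of the vorticity orthogonal to
`e` enters, and only where it stretches. The bounds may grow with the vorticity, `B(t) φ(log |ω|)`
with integrable `B`, as long as `∫^∞ ds / φ(s) = ∞`, for instance `φ(s) = 1 + s`.

Proof: the averages of `e · ∇(e · u)` with the weights `(1 - |y|² / r²)₊³` decrease in `r` at most by
the averages of the positive part of the kernel (after an integration by parts, which uses that `u`
has divergence zero), and the integral of these averages over `r < ρ` is bounded by the singular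
integral (Tonelli). The average for `r = ρ` is bounded by the mean oscillation of `e · u`. The maximum
of the vorticity grows at most at the stretching rate at any point where it is attained.
-/

set_option autoImplicit false

open MeasureTheory Set

namespace Pool.Agent.Results.MP_b0497c_an.OneSidedKernel

open Pool.Agent.H708R2.EulerSign Pool.Agent.H708R2.EulerTypeI Pool.Agent.W786.Max
  Pool.Agent.V11287.Eul

/-- There is an absolute constant `C > 0` with the following property. Let `(u, p)` be a `C²`
periodic solution of the Euler equations on `[0, T)`, let `φ ≥ 1` be continuous on `[0, ∞)`, `B ≥ 0`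
integrable over `(0, T)` and `Λ ≥ 1`. Suppose that for almost every `t` there is a point `x` of
maximal vorticity, such that `m = |ω(t, x)| ≤ Λ` or the condition `Depleted` holds at `x` with the
bound `B(t) φ(log m)`. Then
`∫ ds / φ(s) ≤ C ∫₀ᵗ B`, the integral being from `log K` to `log |ω(t, x)|`, for all `t` and `x` with
`|ω(t, x)| ≥ K` and all bounds `K ≥ Λ` of `|ω(0, ·)|`; and if `∫₀^∞ ds / φ(s) = ∞`, then the
Beale-Kato-Majda integral is finite. -/
theorem result : ∃ C : ℝ, 0 < C ∧
    ∀ (T Λ : ℝ) (u : ℝ → V → V) (p : ℝ → V → ℝ) (φ B : ℝ → ℝ), IsC2Solution T u p →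
      ContinuousOn φ (Ici 0) → (∀ s, 0 ≤ s → 1 ≤ φ s) → 1 ≤ Λ →
      (∀ t ∈ Ioo 0 T, 0 ≤ B t) → IntegrableOn B (Ioo 0 T) →
      (∀ᵐ t, t ∈ Ioo 0 T → ∃ x, IsMaxPt u t x ∧ (Λ < nrm (vort (u t) x) →
        Depleted (u t) x (B t * φ (Real.log (nrm (vort (u t) x)))))) →
      (∀ K, Λ ≤ K → (∀ x, nrm (vort (u 0) x) ≤ K) →
        ∀ t ∈ Ioo 0 T, ∀ x, K ≤ nrm (vort (u t) x) →
          ∫ s in (Real.log K)..(Real.log (nrm (vort (u t) x))), 1 / φ s
            ≤ C * ∫ s in Ioo 0 t, B s) ∧
      (¬ IntegrableOn (fun s => 1 / φ s) (Ioi 0) → BKMFinite T u) :=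
  ⟨Ck, Ck_pos, fun _ _ _ _ _ _ h hφc hφ1 hΛ hB0 hBi hyp => ker_main h hφc hφ1 hΛ hB0 hBi hyp⟩

end Pool.Agent.Results.MP_b0497c_an.OneSidedKernel
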