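import Pool.Agent.V11287.Eul.One

/-!
# One-sided criteria of type I for the Euler equations, with sharp thresholds

Let `ξ = ω / |ω|` be the direction of the vorticity of a smooth solution of the Euler equations,
`α = ξ · (∇u) ξ` the stretching rate, `χ = (∇u) ξ - α ξ` the velocity with which the direction turns
along the flow, and `P` the Hessian of the pressure. The starting file `TypeIThreshold` excludes a
singularity at `T` if `|P ω| ≤ (2 - κ / log(1/(T-t))) |ω| / (T-t)²` near `T`, `κ > 3`: a two-sided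
bound for all components of `P ξ`. Here only the component `ξ · P ξ` enters, and only from below,
with the turning rate `|χ|²` and, for `θ < 1`, the *gain* `(1 - θ) α²`: for every `θ > 0` a
singularity is excluded if near `T`

`|χ|² + (θ - 1) α² - ξ · P ξ ≤ (θ + 1 - κ / log(1/(T-t))) / (T-t)²`

with some `κ > 2 θ + 1`. Both constants `θ + 1` and `2 θ + 1` are sharp for every `θ`, for
non-periodic solutions which are linear in `x`.

Proof: along the particle paths `|ω|^θ` satisfies `(|ω|^θ)'' = θ (|χ|² + (θ - 1) α² - ξ · P ξ) |ω|^θ`,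
and it is compared with `(T-t)^(-θ) log(1/(T-t))^(-γ θ)`, `γ = κ / (2 θ + 1) > 1`.
-/

set_option autoImplicit false

open MeasureTheory Set
open scoped ENNReal Topology

namespace Pool.Agent.Results.MP_b0497c_an.OneSidedTypeI

open Pool.Agent.H708R2.EulerSign Pool.Agent.H708R2.EulerTypeI Pool.Agent.V11287.Eul

/-- (1) Let `θ > 0` and `κ > 2 θ + 1`. If a `C²` periodic solution of the Euler equations on `[0, T)`
satisfies, near `T` and wherever the vorticity does not vanish,
`(T - t)² (|χ|² + (θ - 1) α² - ξ · (D²p) ξ) ≤ θ + 1 - κ / log (1/(T - t))`, then its vorticity is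
`O(1 / ((T - t) log(1/(T - t))^γ))` with `γ = κ / (2 θ + 1) > 1`, and its Beale-Kato-Majda integral
is finite.
(2) For each `θ > 0` and `κ < 2 θ + 1` this fails for a non-periodic solution, linear in `x`. -/
theorem result :
    (∀ (T θ κ : ℝ) (u : ℝ → V → V) (p : ℝ → V → ℝ), 0 < T → 0 < θ → 2 * θ + 1 < κ →
      IsC2Solution T u p →
      (∀ᶠ t in 𝓝[<] T, ∀ x, vort (u t) x ≠ 0 →
        (T - t) ^ 2 * (turn (u t) x ⬝ᵥ turn (u t) x + (θ - 1) * stretch (u t) x ^ 2
          - dirv (u t) x ⬝ᵥ (hess (p t) x).mulVec (dirv (u t) x))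
          ≤ θ + 1 - κ / Real.log (1 / (T - t))) →
      (∃ C : ℝ, ∀ᶠ t in 𝓝[<] T, ∀ x, nrm (vort (u t) x)
        ≤ C / ((T - t) * Real.log (1 / (T - t)) ^ (κ / (2 * θ + 1)))) ∧
      BKMFinite T u) ∧
    (∀ T θ κ : ℝ, 0 < T → 0 < θ → κ < 2 * θ + 1 →
      ∃ (u : ℝ → V → V) (p : ℝ → V → ℝ), IsSpaceSolution T u p ∧
        (∀ t, ∃ A : Matrix (Fin 3) (Fin 3) ℝ, ∀ x, u t x = A.mulVec x) ∧
        (∀ t ∈ Ico 0 T, ∀ x, vort (u t) x ≠ 0) ∧
        (∀ᶠ t in 𝓝[<] T, ∀ x,
          (T - t) ^ 2 * (turn (u t) x ⬝ᵥ turn (u t) x + (θ - 1) * stretch (u t) x ^ 2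
            - dirv (u t) x ⬝ᵥ (hess (p t) x).mulVec (dirv (u t) x))
            ≤ θ + 1 - κ / Real.log (1 / (T - t))) ∧
        ¬ BKMFinite T u) :=
  ⟨fun _ _ _ _ _ hT hθ hκ h hyp => one_main hT h hθ hκ hyp,
    fun T _ _ hT hθ hκ => ⟨uf T, pf T, uf_solution T,
      fun t => ⟨Af T t, fun x => congrFun (uf_eq T t) x⟩, fun t ht x hx => by
        rw [uf_vort] at hx
        have h2 := congrFun hx 2
        have h3 := yf_pos ht
        simp at h2
        linarith, uf_one hT hθ hκ, uf_not_bkm hT⟩⟩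

end Pool.Agent.Results.MP_b0497c_an.OneSidedTypeI
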